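import Pool.Agent.TH.Wrap

namespace Pool.Agent.H78.TH

open Finset Pool.Agent.TH

/-- The ordered pairs of `A × B` which are conflict pairs of `h` inside `A`. -/
def confl {V : Type*} [DecidableEq V] (h : V → V → V) (A B : Finset V) : Finset (V × V) :=
  (A ×ˢ B).filter (fun p => h p.1 p.2 ∈ A ∧ h p.1 p.2 ≠ p.1)

theorem conflict_symm {V : Type*} {h : V → V → V} {A B : Finset V} (hc : Conflict h A B) :
    Conflict h B A := by
  obtain ⟨x, hx, z, hz, hc⟩ := hc
  exact ⟨z, hz, x, hx, hc.symm⟩

theorem conflict_of_mem_confl {V : Type*} [DecidableEq V] {h : V → V → V} {A B : Finset V}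
    {p : V × V} (hp : p ∈ confl h A B) : Conflict h A B := by
  rw [confl, Finset.mem_filter, Finset.mem_product] at hp
  exact ⟨p.1, hp.1.1, p.2, hp.1.2, Or.inl hp.2⟩

/-- The number of functions which avoid given sets on a set of coordinates. -/
theorem card_avoid {I β : Type*} [Fintype I] [DecidableEq I] [Fintype β] [DecidableEq β]
    (J : Finset I) (G : I → Finset β) (g : ℝ)
    (hg : ∀ i ∈ J, g * Fintype.card β ≤ (G i).card) :
    (((Finset.univ : Finset (I → β)).filter (fun ω => ∀ i ∈ J, ω i ∉ G i)).card : ℝ) ≤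
      (Fintype.card β : ℝ) ^ (Fintype.card I) * (1 - g) ^ J.card := by
  classical
  have h1 : (Finset.univ : Finset (I → β)).filter (fun ω => ∀ i ∈ J, ω i ∉ G i) =
      Fintype.piFinset (fun i => if i ∈ J then (G i)ᶜ else Finset.univ) := by
    ext ω
    simp only [Finset.mem_filter, Finset.mem_univ, true_and, Fintype.mem_piFinset]
    refine forall_congr' fun i => ?_
    by_cases hi : i ∈ J <;> simp [hi]
  rw [h1, Fintype.card_piFinset]
  push_cast
  calc ∏ i, (((if i ∈ J then (G i)ᶜ else Finset.univ : Finset β)).card : ℝ)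
      ≤ ∏ i, ((Fintype.card β : ℝ) * (if i ∈ J then (1 - g) else 1)) := by
        apply Finset.prod_le_prod (fun i _ => by positivity)
        intro i _
        by_cases hi : i ∈ J
        · simp only [hi, if_true]
          rw [Finset.card_compl, Nat.cast_sub (Finset.card_le_univ _)]
          have := hg i hi
          linarith
        · simp [hi]
    _ = (Fintype.card β : ℝ) ^ (Fintype.card I) * (1 - g) ^ J.card := by
        rw [Finset.prod_mul_distrib, Finset.prod_const, Finset.card_univ]
        congr 1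
        rw [Finset.prod_ite, Finset.prod_const_one, mul_one, Finset.prod_const,
          Finset.filter_mem_eq_inter, Finset.univ_inter]

/-- Representatives: in a set whose image is small many elements have a mate. -/
theorem exists_mates {V C : Type*} [DecidableEq V] [DecidableEq C] (rc : V → C)
    (P : Finset V) {n : ℕ} (hP : P.card = n) (h : 16 * (P.image rc).card < 15 * n) :
    ∃ R : Finset V, R ⊆ P ∧ n ≤ 16 * R.card ∧
      ∀ x ∈ R, ∃ y ∈ P, y ≠ x ∧ rc x = rc y := by
  classical
  have hex : ∀ c ∈ P.image rc, ∃ y ∈ P, rc y = c := fun c hc => by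
    simpa using hc
  choose y hy1 hy2 using hex
  set S : Finset V := (P.image rc).attach.image (fun c => y c.1 c.2) with hS
  have hSc : S.card ≤ (P.image rc).card :=
    Finset.card_image_le.trans (le_of_eq (Finset.card_attach))
  refine ⟨P \ S, Finset.sdiff_subset, ?_, ?_⟩
  · have := Finset.le_card_sdiff S P
    omega
  · intro x hx
    rw [Finset.mem_sdiff] at hx
    have hxc : rc x ∈ P.image rc := Finset.mem_image_of_mem _ hx.1
    refine ⟨y (rc x) hxc, hy1 _ hxc, ?_, (hy2 _ hxc).symm⟩
    intro h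
    apply hx.2
    rw [hS, Finset.mem_image]
    exact ⟨⟨_, hxc⟩, Finset.mem_attach _ _, h⟩

section

variable {V : Type*} [Fintype V] [DecidableEq V]

/-- The overridden map. -/
def ovr {s D : ℕ} (er ec : V → Fin s → V) (h0 : V → V → V)
    (ω : V × V → Fin D × Bool × Fin s) (x z : V) : V :=
  if (ω (x, z)).1.val = 0 then
    (if (ω (x, z)).2.1 then er x (ω (x, z)).2.2 else ec x (ω (x, z)).2.2)
  else h0 x z

theorem card_bad_of_confl {s D : ℕ} (hD : 0 < D) (h0 : V → V → V) {A B : Finset V} {K : ℕ} (hK : K ≤ (confl h0 A B).card) :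
    (((Finset.univ : Finset (V × V → Fin D × Bool × Fin s)).filter
      (fun ω => ∀ p ∈ confl h0 A B, (ω p).1.val = 0)).card : ℝ) ≤
      (Fintype.card (Fin D × Bool × Fin s) : ℝ) ^ (Fintype.card (V × V)) *
        (1 / (D : ℝ)) ^ K := by
  classical
  have hDR : (0 : ℝ) < D := by exact_mod_cast hD
  have h1 : (Finset.univ : Finset (V × V → Fin D × Bool × Fin s)).filter
      (fun ω => ∀ p ∈ confl h0 A B, (ω p).1.val = 0) =
      (Finset.univ : Finset (V × V → Fin D × Bool × Fin s)).filter
      (fun ω => ∀ p ∈ confl h0 A B, ω p ∉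
        (Finset.univ : Finset (Fin D × Bool × Fin s)).filter (fun b => b.1.val ≠ 0)) := by
    ext ω
    simp
  have h2 : ((Finset.univ : Finset (Fin D × Bool × Fin s)).filter (fun b => b.1.val ≠ 0)).card =
      (D - 1) * (2 * s) := by
    have h3 : (Finset.univ : Finset (Fin D × Bool × Fin s)).filter (fun b => b.1.val ≠ 0) =
        ((Finset.univ : Finset (Fin D)).filter (fun d => d.val ≠ 0)) ×ˢ
          (Finset.univ : Finset (Bool × Fin s)) := by
      ext b
      simp
    rw [h3, Finset.card_product, Finset.card_univ, Fintype.card_prod, Fintype.card_bool,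
      Fintype.card_fin]
    congr 1
    have h4 : (Finset.univ : Finset (Fin D)).filter (fun d => d.val ≠ 0) =
        Finset.univ.erase ⟨0, hD⟩ := by
      ext d
      simp [Fin.ext_iff]
    rw [h4, Finset.card_erase_of_mem (Finset.mem_univ _), Finset.card_univ, Fintype.card_fin]
  rw [h1]
  refine (card_avoid (confl h0 A B) (fun _ => (Finset.univ : Finset (Fin D × Bool × Fin s)).filter
    (fun b => b.1.val ≠ 0)) (1 - 1 / (D : ℝ)) ?_).trans ?_
  · intro p _
    have h5 : ((D - 1 : ℕ) : ℝ) = D - 1 := by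
      rw [Nat.cast_sub (by omega : 1 ≤ D), Nat.cast_one]
    rw [h2]
    simp only [Fintype.card_prod, Fintype.card_bool, Fintype.card_fin]
    push_cast
    rw [h5]
    apply le_of_eq
    field_simp
  · apply mul_le_mul_of_nonneg_left _ (by positivity)
    rw [sub_sub_cancel]
    apply pow_le_pow_of_le_one (by positivity) _ hK
    rw [div_le_one hDR]
    exact_mod_cast hD

theorem card_bad_of_mates {s D n : ℕ} (hD : 0 < D) (hs : 0 < s)
    {Q R : Finset V} (hn : n ≤ 16 * R.card) (hQ : Q.card = n)
    (t : V → Bool × Fin s) :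
    (((Finset.univ : Finset (V × V → Fin D × Bool × Fin s)).filter
      (fun ω => ∀ p ∈ R ×ˢ Q, ω p ≠ (⟨0, hD⟩, t p.1))).card : ℝ) ≤
      (Fintype.card (Fin D × Bool × Fin s) : ℝ) ^ (Fintype.card (V × V)) *
        Real.exp (-((n : ℝ) ^ 2 / (32 * D * s))) := by
  classical
  have hDR : (0 : ℝ) < D := by exact_mod_cast hD
  have hsR : (0 : ℝ) < s := by exact_mod_cast hs
  have h1 : (Finset.univ : Finset (V × V → Fin D × Bool × Fin s)).filter
      (fun ω => ∀ p ∈ R ×ˢ Q, ω p ≠ (⟨0, hD⟩, t p.1)) =
      (Finset.univ : Finset (V × V → Fin D × Bool × Fin s)).filter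
      (fun ω => ∀ p ∈ R ×ˢ Q, ω p ∉
        ({(⟨0, hD⟩, t p.1)} : Finset (Fin D × Bool × Fin s))) := by
    ext ω
    simp
  have hD1 : (1 : ℝ) ≤ D := by exact_mod_cast hD
  have hs1 : (1 : ℝ) ≤ s := by exact_mod_cast hs
  have hg1 : 1 / (2 * (D : ℝ) * s) ≤ 1 := by
    rw [div_le_one (by positivity)]
    nlinarith
  rw [h1]
  refine (card_avoid (R ×ˢ Q) (fun p => ({(⟨0, hD⟩, t p.1)} : Finset (Fin D × Bool × Fin s)))
    (1 / (2 * (D : ℝ) * s)) ?_).trans ?_
  · intro p _
    simp only [Finset.card_singleton, Fintype.card_prod, Fintype.card_bool, Fintype.card_fin]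
    push_cast
    apply le_of_eq
    field_simp
  · apply mul_le_mul_of_nonneg_left _ (by positivity)
    have h2 : 1 - 1 / (2 * (D : ℝ) * s) ≤ Real.exp (-(1 / (2 * (D : ℝ) * s))) := by
      have := Real.add_one_le_exp (-(1 / (2 * (D : ℝ) * s)))
      linarith
    calc (1 - 1 / (2 * (D : ℝ) * s)) ^ (R ×ˢ Q).card
        ≤ (Real.exp (-(1 / (2 * (D : ℝ) * s)))) ^ (R ×ˢ Q).card :=
          pow_le_pow_left₀ (by linarith) h2 _
      _ = Real.exp (-((R ×ˢ Q).card / (2 * (D : ℝ) * s))) := by
          rw [← Real.exp_nat_mul]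
          congr 1
          ring
      _ ≤ Real.exp (-((n : ℝ) ^ 2 / (32 * D * s))) := by
          apply Real.exp_le_exp.mpr
          apply neg_le_neg
          rw [Finset.card_product, hQ]
          push_cast
          have hnR : (n : ℝ) ≤ 16 * R.card := by exact_mod_cast hn
          rw [div_le_div_iff₀ (by positivity) (by positivity)]
          have h3 : (n : ℝ) * n ≤ 16 * R.card * n :=
            mul_le_mul_of_nonneg_right hnR (Nat.cast_nonneg _)
          have h4 : (0 : ℝ) < 2 * D * s := by positivity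
          calc (n : ℝ) ^ 2 * (2 * D * s) = (n * n) * (2 * D * s) := by ring
            _ ≤ (16 * R.card * n) * (2 * D * s) := mul_le_mul_of_nonneg_right h3 h4.le
            _ = R.card * n * (32 * D * s) := by ring

/-- **Base.** If `h0` has many conflict pairs for all pairs of sets which are spread over the
cells, then some map has a conflict for all pairs of disjoint `n`-sets. -/
theorem base {C₁ C₂ : Type*} [DecidableEq C₁] [DecidableEq C₂]
    (rc : V → C₁) (cc : V → C₂) (s D n K : ℕ) (hs : 0 < s) (hD : 0 < D)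
    (er ec : V → Fin s → V)
    (her : ∀ x y, rc x = rc y → ∃ i, er x i = y) (hec : ∀ x y, cc x = cc y → ∃ i, ec x i = y)
    (h0 : V → V → V)
    (H : ∀ A B : Finset V, A.card = n → B.card = n → Disjoint A B →
      15 * n ≤ 16 * (A.image rc).card → 15 * n ≤ 16 * (A.image cc).card →
      15 * n ≤ 16 * (B.image rc).card → 15 * n ≤ 16 * (B.image cc).card →
      K ≤ (confl h0 A B).card ∨ K ≤ (confl h0 B A).card)
    (hnum : ((Fintype.card V : ℝ) ^ (2 * n)) *
      (Real.exp (-((n : ℝ) ^ 2 / (32 * D * s))) + (1 / (D : ℝ)) ^ K) < 1) :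
    ∃ h : V → V → V, AllConflict h n := by
  classical
  set β := Fin D × Bool × Fin s with hβ
  set W : ℝ := (Fintype.card β : ℝ) ^ (Fintype.card (V × V)) with hW
  have hβpos : (0 : ℝ) < Fintype.card β := by
    have : 0 < Fintype.card (Fin D × Bool × Fin s) := by
      rw [Fintype.card_prod, Fintype.card_prod, Fintype.card_bool, Fintype.card_fin,
        Fintype.card_fin]
      positivity
    exact_mod_cast this
  have hWpos : 0 < W := by positivity
  set ε : ℝ := Real.exp (-((n : ℝ) ^ 2 / (32 * D * s))) + (1 / (D : ℝ)) ^ K with hε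
  have hεpos : 0 < ε := by positivity
  -- the bad maps for a pair
  let Bad : Finset V × Finset V → Finset (V × V → β) := fun q =>
    Finset.univ.filter (fun ω => ¬ Conflict (ovr er ec h0 ω) q.1 q.2)
  -- case 1
  have hc1 : ∀ P Q : Finset V, K ≤ (confl h0 P Q).card →
      ((Bad (P, Q)).card : ℝ) ≤ W * ε := by
    intro P Q hK
    have hsub : Bad (P, Q) ⊆ Finset.univ.filter
        (fun ω => ∀ p ∈ confl h0 P Q, (ω p).1.val = 0) := by
      intro ω hω
      rw [Finset.mem_filter] at hω ⊢
      refine ⟨Finset.mem_univ _, fun p hp => ?_⟩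
      by_contra hcon
      apply hω.2
      apply conflict_of_mem_confl (p := p)
      rw [confl, Finset.mem_filter] at hp ⊢
      refine ⟨hp.1, ?_⟩
      have : ovr er ec h0 ω p.1 p.2 = h0 p.1 p.2 := by
        rw [ovr, if_neg hcon]
      rw [this]
      exact hp.2
    calc ((Bad (P, Q)).card : ℝ) ≤ _ := by exact_mod_cast Finset.card_le_card hsub
      _ ≤ W * (1 / (D : ℝ)) ^ K := card_bad_of_confl (s := s) hD h0 hK
      _ ≤ W * ε := by
          apply mul_le_mul_of_nonneg_left _ hWpos.le
          rw [hε]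
          have := Real.exp_pos (-((n : ℝ) ^ 2 / (32 * D * s)))
          linarith
  -- case 2
  have hc2 : ∀ P Q R : Finset V, R ⊆ P → n ≤ 16 * R.card → Q.card = n →
      (∃ t : V → Bool × Fin s, ∀ x ∈ R, (if (t x).1 then er x (t x).2 else ec x (t x).2) ∈ P ∧
        (if (t x).1 then er x (t x).2 else ec x (t x).2) ≠ x) →
      ((Bad (P, Q)).card : ℝ) ≤ W * ε := by
    rintro P Q R hR hn hQ ⟨t, ht⟩
    have hsub : Bad (P, Q) ⊆ Finset.univ.filter
        (fun ω => ∀ p ∈ R ×ˢ Q, ω p ≠ (⟨0, hD⟩, t p.1)) := by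
      intro ω hω
      rw [Finset.mem_filter] at hω ⊢
      refine ⟨Finset.mem_univ _, fun p hp hcon => ?_⟩
      rw [Finset.mem_product] at hp
      apply hω.2
      apply conflict_of_mem_confl (p := p)
      rw [confl, Finset.mem_filter, Finset.mem_product]
      have : ovr er ec h0 ω p.1 p.2 =
          (if (t p.1).1 then er p.1 (t p.1).2 else ec p.1 (t p.1).2) := by
        rw [ovr]
        simp only [Prod.mk.eta, hcon, if_true]
      rw [this]
      exact ⟨⟨hR hp.1, hp.2⟩, ht p.1 hp.1⟩
    calc ((Bad (P, Q)).card : ℝ) ≤ _ := by exact_mod_cast Finset.card_le_card hsub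
      _ ≤ W * Real.exp (-((n : ℝ) ^ 2 / (32 * D * s))) := card_bad_of_mates hD hs hn hQ t
      _ ≤ W * ε := by
          apply mul_le_mul_of_nonneg_left _ hWpos.le
          rw [hε]
          have : 0 ≤ (1 / (D : ℝ)) ^ K := by positivity
          linarith
  have hc2r : ∀ P Q : Finset V, P.card = n → Q.card = n →
      16 * (P.image rc).card < 15 * n → ((Bad (P, Q)).card : ℝ) ≤ W * ε := by
    intro P Q hP hQ hlt
    obtain ⟨R, hR, hn, hm⟩ := exists_mates rc P hP hlt
    refine hc2 P Q R hR hn hQ ?_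
    have : ∀ x ∈ R, ∃ i : Fin s, er x i ∈ P ∧ er x i ≠ x := by
      intro x hx
      obtain ⟨y, hy, hyx, hrc⟩ := hm x hx
      obtain ⟨i, hi⟩ := her x y hrc
      exact ⟨i, hi ▸ hy, hi ▸ hyx⟩
    have hne : Nonempty (Fin s) := ⟨⟨0, hs⟩⟩
    choose! i hi using this
    exact ⟨fun x => (true, i x), fun x hx => by simpa using hi x hx⟩
  have hc2c : ∀ P Q : Finset V, P.card = n → Q.card = n →
      16 * (P.image cc).card < 15 * n → ((Bad (P, Q)).card : ℝ) ≤ W * ε := by
    intro P Q hP hQ hlt
    obtain ⟨R, hR, hn, hm⟩ := exists_mates cc P hP hlt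
    refine hc2 P Q R hR hn hQ ?_
    have : ∀ x ∈ R, ∃ i : Fin s, ec x i ∈ P ∧ ec x i ≠ x := by
      intro x hx
      obtain ⟨y, hy, hyx, hrc⟩ := hm x hx
      obtain ⟨i, hi⟩ := hec x y hrc
      exact ⟨i, hi ▸ hy, hi ▸ hyx⟩
    have hne : Nonempty (Fin s) := ⟨⟨0, hs⟩⟩
    choose! i hi using this
    exact ⟨fun x => (false, i x), fun x hx => by simpa using hi x hx⟩
  have hswap : ∀ P Q : Finset V, Bad (P, Q) = Bad (Q, P) := by
    intro P Q
    ext ω
    simp only [Bad, Finset.mem_filter, Finset.mem_univ, true_and, not_iff_not]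
    exact ⟨conflict_symm, conflict_symm⟩
  have hbad : ∀ A B : Finset V, A.card = n → B.card = n → Disjoint A B →
      ((Bad (A, B)).card : ℝ) ≤ W * ε := by
    intro A B hA hB hAB
    by_cases h1 : 15 * n ≤ 16 * (A.image rc).card
    swap
    · exact hc2r A B hA hB (not_le.mp h1)
    by_cases h2 : 15 * n ≤ 16 * (A.image cc).card
    swap
    · exact hc2c A B hA hB (not_le.mp h2)
    by_cases h3 : 15 * n ≤ 16 * (B.image rc).card
    swap
    · rw [hswap]
      exact hc2r B A hB hA (not_le.mp h3)
    by_cases h4 : 15 * n ≤ 16 * (B.image cc).card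
    swap
    · rw [hswap]
      exact hc2c B A hB hA (not_le.mp h4)
    rcases H A B hA hB hAB h1 h2 h3 h4 with h | h
    · exact hc1 A B h
    · rw [hswap]
      exact hc1 B A h
  -- union bound
  by_contra hcon
  push Not at hcon
  set F : Finset (Finset V × Finset V) :=
    ((Finset.univ.powersetCard n) ×ˢ (Finset.univ.powersetCard n)).filter
      (fun q => Disjoint q.1 q.2) with hF
  have hFc : (F.card : ℝ) ≤ (Fintype.card V : ℝ) ^ (2 * n) := by
    have h1 : F.card ≤ (Fintype.card V).choose n * (Fintype.card V).choose n := by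
      refine (Finset.card_filter_le _ _).trans ?_
      rw [Finset.card_product, Finset.card_powersetCard, Finset.card_univ]
    have h2 : (Fintype.card V).choose n ≤ (Fintype.card V) ^ n := Nat.choose_le_pow _ _
    have h3 : F.card ≤ (Fintype.card V) ^ (2 * n) := by
      calc F.card ≤ _ := h1
        _ ≤ (Fintype.card V) ^ n * (Fintype.card V) ^ n := Nat.mul_le_mul h2 h2
        _ = (Fintype.card V) ^ (2 * n) := by rw [← pow_add, two_mul]
    exact_mod_cast h3
  have hcover : (Finset.univ : Finset (V × V → β)) ⊆ F.biUnion Bad := by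
    intro ω _
    have h1 := hcon (ovr er ec h0 ω)
    simp only [AllConflict] at h1
    push Not at h1
    obtain ⟨A, B, hA, hB, hAB, hc⟩ := h1
    rw [Finset.mem_biUnion]
    refine ⟨(A, B), ?_, ?_⟩
    · rw [hF, Finset.mem_filter, Finset.mem_product, Finset.mem_powersetCard,
        Finset.mem_powersetCard]
      exact ⟨⟨⟨Finset.subset_univ _, hA⟩, ⟨Finset.subset_univ _, hB⟩⟩, hAB⟩
    · simp only [Bad, Finset.mem_filter, Finset.mem_univ, true_and]
      exact hc
  have h5 : W ≤ F.card * (W * ε) := by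
    have h6 := (Finset.card_le_card hcover).trans Finset.card_biUnion_le
    rw [Finset.card_univ, Fintype.card_fun] at h6
    calc W = ((Fintype.card β ^ Fintype.card (V × V) : ℕ) : ℝ) := by push_cast; rfl
      _ ≤ ((∑ t ∈ F, (Bad t).card : ℕ) : ℝ) := by exact_mod_cast h6
      _ = ∑ t ∈ F, ((Bad t).card : ℝ) := by push_cast; rfl
      _ ≤ ∑ t ∈ F, (W * ε) := by
          apply Finset.sum_le_sum
          intro q hq
          rw [hF, Finset.mem_filter, Finset.mem_product, Finset.mem_powersetCard,
            Finset.mem_powersetCard] at hq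
          exact hbad q.1 q.2 hq.1.1.2 hq.1.2.2 hq.2
      _ = _ := by rw [Finset.sum_const, nsmul_eq_mul]
  have h7 : (F.card : ℝ) * ε < 1 := by
    calc (F.card : ℝ) * ε ≤ (Fintype.card V : ℝ) ^ (2 * n) * ε :=
          mul_le_mul_of_nonneg_right hFc hεpos.le
      _ < 1 := hnum
  nlinarith

end

end Pool.Agent.H78.TH
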