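import Mathlib

namespace Pool.Agent.H78.TH

open Finset

/-- A set with one element in every fiber. -/
theorem exists_reps {V C : Type*} [DecidableEq V] [DecidableEq C] (c : V → C) (P : Finset V) :
    ∃ R ⊆ P, R.image c = P.image c ∧ Set.InjOn c (R : Set V) ∧ R.card = (P.image c).card := by
  classical
  have hex : ∀ y ∈ P.image c, ∃ x ∈ P, c x = y := fun y hy => by simpa using hy
  choose r hr1 hr2 using hex
  refine ⟨(P.image c).attach.image (fun y => r y.1 y.2), ?_, ?_, ?_, ?_⟩
  · intro x hx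
    obtain ⟨y, -, rfl⟩ := Finset.mem_image.mp hx
    exact hr1 _ _
  · ext y
    constructor
    · intro hy
      obtain ⟨x, hx, rfl⟩ := Finset.mem_image.mp hy
      obtain ⟨y, -, rfl⟩ := Finset.mem_image.mp hx
      rw [hr2]
      exact y.2
    · intro hy
      rw [Finset.mem_image]
      exact ⟨r y hy, Finset.mem_image.mpr ⟨⟨y, hy⟩, Finset.mem_attach _ _, rfl⟩, hr2 _ _⟩
  · intro x hx x' hx' h
    rw [Finset.mem_coe, Finset.mem_image] at hx hx'
    obtain ⟨y, -, rfl⟩ := hx
    obtain ⟨y', -, rfl⟩ := hx'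
    rw [hr2, hr2] at h
    have : y = y' := Subtype.ext h
    rw [this]
  · rw [Finset.card_image_of_injective, Finset.card_attach]
    intro y y' h
    apply Subtype.ext
    rw [← hr2 y.1 y.2, ← hr2 y'.1 y'.2]
    exact congrArg c h

/-- The set `P*` of section 3. -/
theorem exists_star {V C D : Type*} [DecidableEq V] [DecidableEq C] [DecidableEq D]
    (c : V → C) (d : V → D) (P : Finset V) (k : ℕ)
    (h : k + (P.image c).card ≤ (P.image d).card) :
    ∃ Pst ⊆ P, Pst.card = k ∧ Set.InjOn d (Pst : Set V) ∧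
      ∀ a ∈ Pst, ∃ x ∈ P, x ≠ a ∧ c x = c a := by
  classical
  obtain ⟨P1, hP1, -, hd1, hc1⟩ := exists_reps d P
  obtain ⟨P2, hP2, him2, -, hc2⟩ := exists_reps c P1
  have h2 : P2.card ≤ (P.image c).card := by
    rw [hc2]
    exact Finset.card_le_card (Finset.image_subset_image hP1)
  have h3 : k ≤ (P1 \ P2).card := by
    have := Finset.le_card_sdiff P2 P1
    omega
  obtain ⟨Pst, hPst, hk⟩ := Finset.exists_subset_card_eq h3
  refine ⟨Pst, hPst.trans (Finset.sdiff_subset.trans hP1), hk, ?_, ?_⟩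
  · intro a ha a' ha' haa
    exact hd1 (Finset.sdiff_subset (hPst ha)) (Finset.sdiff_subset (hPst ha')) haa
  · intro a ha
    have ha1 := hPst ha
    rw [Finset.mem_sdiff] at ha1
    have ha2 : c a ∈ P2.image c := by
      rw [him2]
      exact Finset.mem_image_of_mem _ ha1.1
    obtain ⟨x, hx, hxa⟩ := Finset.mem_image.mp ha2
    refine ⟨x, hP1 (hP2 hx), ?_, hxa⟩
    rintro rfl
    exact ha1.2 hx

end Pool.Agent.H78.TH
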